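import Mathlib

/-!
# An injective measurable map of `(0,2)` into `(0,1)` with infinite approximate difference quotients

`φ(x) = 1/2 + ∑_p D_{idx p}(x) 4^{-(p+1)}` where `D_i(x)` is the `i`-th binary digit of `x`,
`idx (2k) = 8k` and `idx (2k+1) = k`. If `|φ(x+h) - φ(x)|` is small compared with `2^{-n}` then about
`n/8` of the binary digits of `x + h` with index larger than `n` agree with those of `x`.
-/

set_option autoImplicit false

namespace Pool.Agent.Results.MP_868b62_an.InjectiveExpanding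

open MeasureTheory Filter Topology Set
open scoped ENNReal

/-- The approximate lower limit of `g` at `0+`. -/
noncomputable def apLiminf (g : ℝ → ℝ) : EReal :=
  sSup {t : EReal | ∃ s : ℝ, t = s ∧
    Tendsto (fun r : ℝ => volume {h : ℝ | h ∈ Ioo 0 r ∧ g h < s} / ENNReal.ofReal r) (𝓝[>] 0) (𝓝 0)}

/-- binary digits -/
noncomputable def D (i : ℕ) (y : ℝ) : ℤ := ⌊(2 : ℝ) ^ i * y⌋ % 2

theorem D_cases (i : ℕ) (y : ℝ) : D i y = 0 ∨ D i y = 1 := Int.emod_two_eq_zero_or_one _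

/-- which digit is put at position `p` -/
def idx (p : ℕ) : ℕ := if p % 2 = 0 then 8 * (p / 2) else p / 2

theorem idx_even (k : ℕ) : idx (2 * k) = 8 * k := by
  unfold idx; rw [if_pos (by omega)]; congr 1; omega

theorem idx_odd (k : ℕ) : idx (2 * k + 1) = k := by
  unfold idx; rw [if_neg (by omega)]; omega

/-- the map -/
noncomputable def phi (y : ℝ) : ℝ := 1 / 2 + ∑' p : ℕ, (D (idx p) y : ℝ) * (1 / 4) ^ (p + 1)

theorem summable_w : Summable fun p : ℕ => (1 / 4 : ℝ) ^ (p + 1) :=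
  (summable_nat_add_iff 1).2 (summable_geometric_of_lt_one (by norm_num) (by norm_num))

theorem D_le (i : ℕ) (y : ℝ) : (0 : ℝ) ≤ D i y ∧ (D i y : ℝ) ≤ 1 := by
  rcases D_cases i y with h | h <;> rw [h] <;> norm_num

theorem summable_phi (y : ℝ) : Summable fun p : ℕ => (D (idx p) y : ℝ) * (1 / 4) ^ (p + 1) := by
  refine Summable.of_nonneg_of_le (fun p => ?_) (fun p => ?_) summable_w
  · exact mul_nonneg (D_le _ _).1 (by positivity)
  · have := (D_le (idx p) y).2
    have h2 : (0 : ℝ) < (1 / 4) ^ (p + 1) := by positivity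
    nlinarith

theorem tsum_w : ∑' p : ℕ, (1 / 4 : ℝ) ^ (p + 1) = 1 / 3 := by
  simp only [pow_succ]
  rw [tsum_mul_right, tsum_geometric_of_lt_one (by norm_num) (by norm_num)]
  norm_num

theorem phi_mem (y : ℝ) : phi y ∈ Ioo (0 : ℝ) 1 := by
  unfold phi
  have h1 : 0 ≤ ∑' p : ℕ, (D (idx p) y : ℝ) * (1 / 4) ^ (p + 1) :=
    tsum_nonneg fun p => mul_nonneg (D_le _ _).1 (by positivity)
  have h2 : ∑' p : ℕ, (D (idx p) y : ℝ) * (1 / 4) ^ (p + 1) ≤ ∑' p : ℕ, (1 / 4 : ℝ) ^ (p + 1) := by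
    apply Summable.tsum_le_tsum _ (summable_phi y) summable_w
    intro p
    have := (D_le (idx p) y).2
    have h2 : (0 : ℝ) < (1 / 4) ^ (p + 1) := by positivity
    nlinarith
  rw [tsum_w] at h2
  constructor <;> linarith

/-- different digits at a position `≤ P` separate the values -/
theorem separation (y y' : ℝ) (P : ℕ) (p0 : ℕ) (hp0 : p0 ≤ P) (hne : D (idx p0) y ≠ D (idx p0) y') :
    2 / 3 * (1 / 4 : ℝ) ^ (P + 1) ≤ |phi y - phi y'| := by
  classical
  have hex : ∃ p, D (idx p) y ≠ D (idx p) y' := ⟨p0, hne⟩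
  set q := Nat.find hex with hq
  have hqne : D (idx q) y ≠ D (idx q) y' := Nat.find_spec hex
  have hqmin : ∀ p < q, D (idx p) y = D (idx p) y' := by
    intro p hp
    have := Nat.find_min hex hp
    push Not at this
    exact this
  have hqP : q ≤ P := (Nat.find_min' hex hne).trans hp0
  let a : ℕ → ℝ := fun p => ((D (idx p) y : ℝ) - D (idx p) y') * (1 / 4) ^ (p + 1)
  have hsa : Summable a := by
    have := (summable_phi y).sub (summable_phi y')
    refine this.congr fun p => ?_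
    simp only [a]; ring
  have hdiff : phi y - phi y' = ∑' p, a p := by
    unfold phi
    have := (summable_phi y).tsum_sub (summable_phi y')
    have h2 : ∑' p, a p = ∑' p : ℕ, ((D (idx p) y : ℝ) * (1 / 4) ^ (p + 1) -
        (D (idx p) y' : ℝ) * (1 / 4) ^ (p + 1)) := by
      apply tsum_congr; intro p; simp only [a]; ring
    rw [h2, this]; ring
  have hsplit := hsa.sum_add_tsum_nat_add (q + 1)
  rw [Finset.sum_range_succ, Finset.sum_eq_zero (fun p hp => by
    simp only [a]; rw [hqmin p (Finset.mem_range.1 hp)]; ring), zero_add] at hsplit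
  have haq : |a q| = (1 / 4 : ℝ) ^ (q + 1) := by
    simp only [a]
    rw [abs_mul, abs_of_pos (by positivity : (0 : ℝ) < (1 / 4) ^ (q + 1))]
    have : |(D (idx q) y : ℝ) - D (idx q) y'| = 1 := by
      rcases D_cases (idx q) y with h | h <;> rcases D_cases (idx q) y' with h' | h'
      · exact absurd (h.trans h'.symm) hqne
      · rw [h, h']; norm_num
      · rw [h, h']; norm_num
      · exact absurd (h.trans h'.symm) hqne
    rw [this, one_mul]
  have htail : |∑' p, a (p + (q + 1))| ≤ 1 / 3 * (1 / 4 : ℝ) ^ (q + 1) := by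
    have hle : ∀ p, |a (p + (q + 1))| ≤ (1 / 4 : ℝ) ^ (p + 1) * (1 / 4) ^ (q + 1) := by
      intro p
      simp only [a]
      rw [abs_mul, abs_of_pos (by positivity : (0 : ℝ) < (1 / 4) ^ (p + (q + 1) + 1))]
      have h1 : |(D (idx (p + (q + 1))) y : ℝ) - D (idx (p + (q + 1))) y'| ≤ 1 := by
        have h1 := D_le (idx (p + (q + 1))) y
        have h2 := D_le (idx (p + (q + 1))) y'
        rw [abs_le]; constructor <;> linarith [h1.1, h1.2, h2.1, h2.2]
      have h2 : (1 / 4 : ℝ) ^ (p + (q + 1) + 1) = (1 / 4 : ℝ) ^ (p + 1) * (1 / 4) ^ (q + 1) := by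
        rw [← pow_add]; congr 1; ring
      rw [h2]
      calc |(D (idx (p + (q + 1))) y : ℝ) - D (idx (p + (q + 1))) y'| *
            ((1 / 4 : ℝ) ^ (p + 1) * (1 / 4) ^ (q + 1)) ≤ 1 * ((1 / 4 : ℝ) ^ (p + 1) * (1 / 4) ^ (q + 1)) :=
            mul_le_mul_of_nonneg_right h1 (by positivity)
        _ = _ := one_mul _
    have hs2 : Summable fun p : ℕ => (1 / 4 : ℝ) ^ (p + 1) * (1 / 4) ^ (q + 1) := summable_w.mul_right _
    have h3 : Summable fun p => |a (p + (q + 1))| :=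
      Summable.of_nonneg_of_le (fun p => abs_nonneg _) hle hs2
    have h4 : |∑' p, a (p + (q + 1))| ≤ ∑' p, |a (p + (q + 1))| := by
      have := norm_tsum_le_tsum_norm (f := fun p => a (p + (q + 1))) (by simpa [Real.norm_eq_abs] using h3)
      simpa [Real.norm_eq_abs] using this
    refine h4.trans ((h3.tsum_le_tsum hle hs2).trans (le_of_eq ?_))
    rw [tsum_mul_right, tsum_w]
  rw [hdiff, ← hsplit]
  have h5 : |a q| - |∑' p, a (p + (q + 1))| ≤ |a q + ∑' p, a (p + (q + 1))| := by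
    have := abs_sub_abs_le_abs_sub (a q) (-∑' p, a (p + (q + 1)))
    rw [abs_neg, sub_neg_eq_add] at this
    exact this
  have h6 : (1 / 4 : ℝ) ^ (P + 1) ≤ (1 / 4) ^ (q + 1) :=
    pow_le_pow_of_le_one (by norm_num) (by norm_num) (by omega)
  rw [haq] at h5
  linarith

theorem floor_succ (i : ℕ) (y : ℝ) : ⌊(2 : ℝ) ^ (i + 1) * y⌋ = 2 * ⌊(2 : ℝ) ^ i * y⌋ + D (i + 1) y := by
  unfold D
  have h1 : (2 : ℝ) ^ (i + 1) * y = 2 * ((2 : ℝ) ^ i * y) := by rw [pow_succ]; ring
  set z := (2 : ℝ) ^ i * y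
  rw [h1]
  have h2 : 2 * ⌊z⌋ ≤ ⌊2 * z⌋ := by
    rw [Int.le_floor]; push_cast; linarith [Int.floor_le z]
  have h3 : ⌊2 * z⌋ < 2 * ⌊z⌋ + 2 := by
    rw [Int.floor_lt]; push_cast; linarith [Int.lt_floor_add_one z]
  omega

theorem phi_injOn : InjOn phi (Ioo (0 : ℝ) 2) := by
  intro y hy y' hy' h
  have hD : ∀ i, D i y = D i y' := by
    intro i
    by_contra hne
    have := separation y y' (2 * i + 1) (2 * i + 1) le_rfl (by rw [idx_odd]; exact hne)
    rw [h, sub_self, abs_zero] at this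
    have h2 : (0 : ℝ) < 2 / 3 * (1 / 4 : ℝ) ^ (2 * i + 1 + 1) := by positivity
    linarith
  have hfl : ∀ i : ℕ, ⌊(2 : ℝ) ^ i * y⌋ = ⌊(2 : ℝ) ^ i * y'⌋ := by
    intro i
    induction i with
    | zero =>
      have h0 := hD 0
      unfold D at h0
      simp only [pow_zero, one_mul] at h0 ⊢
      have e1 : ⌊y⌋ = 0 ∨ ⌊y⌋ = 1 := by
        have a1 : 0 ≤ ⌊y⌋ := Int.floor_nonneg.2 hy.1.le
        have a2 : ⌊y⌋ < 2 := by rw [Int.floor_lt]; exact_mod_cast hy.2
        omega
      have e2 : ⌊y'⌋ = 0 ∨ ⌊y'⌋ = 1 := by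
        have a1 : 0 ≤ ⌊y'⌋ := Int.floor_nonneg.2 hy'.1.le
        have a2 : ⌊y'⌋ < 2 := by rw [Int.floor_lt]; exact_mod_cast hy'.2
        omega
      omega
    | succ i ih => rw [floor_succ, floor_succ, ih, hD]
  by_contra hne
  have hpos : 0 < |y - y'| := abs_pos.2 (sub_ne_zero.2 hne)
  obtain ⟨i, hi⟩ := exists_pow_lt_of_lt_one hpos (by norm_num : (1 / 2 : ℝ) < 1)
  have h1 := hfl i
  have h2 : |(2 : ℝ) ^ i * y - (2 : ℝ) ^ i * y'| < 1 := Int.abs_sub_lt_one_of_floor_eq_floor h1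
  rw [← mul_sub, abs_mul, abs_of_pos (by positivity : (0 : ℝ) < 2 ^ i)] at h2
  have h3 : (2 : ℝ) ^ i * (1 / 2) ^ i = 1 := by rw [← mul_pow]; norm_num
  have h4 : (2 : ℝ) ^ i * (1 / 2) ^ i < (2 : ℝ) ^ i * |y - y'| :=
    mul_lt_mul_of_pos_left hi (by positivity)
  linarith

theorem D_meas (i : ℕ) : Measurable fun y : ℝ => (D i y : ℝ) := by
  unfold D
  have h1 : Measurable fun y : ℝ => ⌊(2 : ℝ) ^ i * y⌋ :=
    Int.measurable_floor.comp (measurable_const.mul measurable_id)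
  have h2 : Measurable fun z : ℤ => ((z % 2 : ℤ) : ℝ) := measurable_from_top
  exact h2.comp h1

theorem phi_meas : Measurable phi := by
  have h : Tendsto (fun (m : ℕ) (y : ℝ) => 1 / 2 + ∑ p ∈ Finset.range m, (D (idx p) y : ℝ) * (1 / 4) ^ (p + 1))
      atTop (𝓝 phi) := by
    rw [tendsto_pi_nhds]
    intro y
    exact tendsto_const_nhds.add (summable_phi y).hasSum.tendsto_sum_nat
  refine measurable_of_tendsto_metrizable (fun m => ?_) h
  apply Measurable.const_add
  apply Finset.measurable_sum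
  intro p _
  exact (D_meas _).mul_const _

/-- measure of the set of points of a dyadic interval with prescribed digits -/
theorem digit_measure (w : ℕ → ℤ) (d : ℕ) : ∀ (n : ℕ) (j : ℤ) (S : Finset ℕ), (∀ i ∈ S, n < i ∧ i ≤ n + d) →
    volume {y : ℝ | y ∈ Ico ((j : ℝ) / 2 ^ n) ((j + 1 : ℝ) / 2 ^ n) ∧ ∀ i ∈ S, D i y = w i} ≤
      ENNReal.ofReal ((1 / 2) ^ (n + S.card)) := by
  induction d with
  | zero =>
    intro n j S hS
    have hSe : S = ∅ := by
      rw [Finset.eq_empty_iff_forall_notMem]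
      intro i hi
      have := hS i hi
      omega
    subst hSe
    refine (measure_mono (fun y hy => hy.1)).trans (le_of_eq ?_)
    rw [Real.volume_Ico]
    congr 1
    rw [Finset.card_empty, add_zero, ← sub_div, add_sub_cancel_left, one_div_pow]
  | succ d ih =>
    intro n j S hS
    -- halves
    have hhalf : ∀ y : ℝ, y ∈ Ico ((j : ℝ) / 2 ^ n) ((j + 1 : ℝ) / 2 ^ n) →
        (D (n + 1) y = 0 ∧ y ∈ Ico (((2 * j : ℤ) : ℝ) / 2 ^ (n + 1)) (((2 * j : ℤ) + 1 : ℝ) / 2 ^ (n + 1))) ∨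
        (D (n + 1) y = 1 ∧ y ∈ Ico (((2 * j + 1 : ℤ) : ℝ) / 2 ^ (n + 1)) (((2 * j + 1 : ℤ) + 1 : ℝ) / 2 ^ (n + 1))) := by
      intro y hy
      have hp : (0 : ℝ) < 2 ^ n := by positivity
      have hp1 : (0 : ℝ) < 2 ^ (n + 1) := by positivity
      rw [mem_Ico, div_le_iff₀ hp, lt_div_iff₀ hp] at hy
      have hfl : ⌊(2 : ℝ) ^ n * y⌋ = j := by
        rw [Int.floor_eq_iff]
        constructor <;> linarith [hy.1, hy.2]
      have h1 := floor_succ n y
      rw [hfl] at h1
      rcases D_cases (n + 1) y with h | h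
      · left
        refine ⟨h, ?_⟩
        rw [h, add_zero, Int.floor_eq_iff] at h1
        rw [mem_Ico, div_le_iff₀ hp1, lt_div_iff₀ hp1]
        constructor
        · linarith [h1.1]
        · linarith [h1.2]
      · right
        refine ⟨h, ?_⟩
        rw [h, Int.floor_eq_iff] at h1
        rw [mem_Ico, div_le_iff₀ hp1, lt_div_iff₀ hp1]
        constructor
        · linarith [h1.1]
        · linarith [h1.2]
    set S' := S.erase (n + 1) with hS'
    have hS'2 : ∀ i ∈ S', n + 1 < i ∧ i ≤ n + 1 + d := by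
      intro i hi
      rw [hS', Finset.mem_erase] at hi
      have := hS i hi.2
      omega
    by_cases hmem : n + 1 ∈ S
    · -- only one half
      have hcard : S'.card + 1 = S.card := Finset.card_erase_add_one hmem
      have hexp : n + 1 + S'.card = n + S.card := by omega
      by_cases hw : w (n + 1) = 0
      · have := ih (n + 1) (2 * j) S' hS'2
        rw [hexp] at this
        refine (measure_mono ?_).trans this
        intro y hy
        rcases hhalf y hy.1 with h | h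
        · exact ⟨h.2, fun i hi => hy.2 i (Finset.mem_of_mem_erase hi)⟩
        · have h3 := hy.2 (n + 1) hmem
          rw [h.1, hw] at h3
          exact absurd h3 (by norm_num)
      · have := ih (n + 1) (2 * j + 1) S' hS'2
        rw [hexp] at this
        refine (measure_mono ?_).trans this
        intro y hy
        rcases hhalf y hy.1 with h | h
        · have h3 := hy.2 (n + 1) hmem
          rw [h.1] at h3
          exact absurd h3.symm hw
        · exact ⟨h.2, fun i hi => hy.2 i (Finset.mem_of_mem_erase hi)⟩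
    · have hS'eq : S' = S := Finset.erase_eq_of_notMem hmem
      have h1 := ih (n + 1) (2 * j) S' hS'2
      have h2 := ih (n + 1) (2 * j + 1) S' hS'2
      rw [hS'eq] at h1 h2
      have hsub : {y : ℝ | y ∈ Ico ((j : ℝ) / 2 ^ n) ((j + 1 : ℝ) / 2 ^ n) ∧ ∀ i ∈ S, D i y = w i} ⊆
          {y : ℝ | y ∈ Ico (((2 * j : ℤ) : ℝ) / 2 ^ (n + 1)) (((2 * j : ℤ) + 1 : ℝ) / 2 ^ (n + 1)) ∧
            ∀ i ∈ S, D i y = w i} ∪
          {y : ℝ | y ∈ Ico (((2 * j + 1 : ℤ) : ℝ) / 2 ^ (n + 1)) (((2 * j + 1 : ℤ) + 1 : ℝ) / 2 ^ (n + 1)) ∧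
            ∀ i ∈ S, D i y = w i} := by
        intro y hy
        rcases hhalf y hy.1 with h | h
        · exact Or.inl ⟨h.2, hy.2⟩
        · exact Or.inr ⟨h.2, hy.2⟩
      refine (measure_mono hsub).trans ((measure_union_le _ _).trans ((add_le_add h1 h2).trans ?_))
      rw [← ENNReal.ofReal_add (by positivity) (by positivity)]
      apply ENNReal.ofReal_le_ofReal
      have : (1 / 2 : ℝ) ^ (n + 1 + S.card) = (1 / 2) * (1 / 2) ^ (n + S.card) := by
        rw [← pow_succ']; congr 1; ring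
      rw [this]
      linarith

/-- number of controlled digits -/
def cnt (m n : ℕ) : ℕ := (n - m - 3) / 4 - n / 8

theorem small_set (x t : ℝ) (m n : ℕ) (ht : t < 2 ^ m) (hmn : m + 3 ≤ n) :
    volume {h : ℝ | h ∈ Ioo (0 : ℝ) ((1 / 2) ^ n) ∧ |phi (x + h) - phi x| < t * (1 / 2) ^ n} ≤
      ENNReal.ofReal (2 * (1 / 2) ^ (n + cnt m n)) := by
  classical
  let S : Finset ℕ := (Finset.Ioc (n / 8) ((n - m - 3) / 4)).image fun k => 8 * k
  have hScard : S.card = cnt m n := by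
    simp only [S]
    rw [Finset.card_image_of_injective _ (fun a b h => by simpa using h), Nat.card_Ioc, cnt]
  have hS : ∀ i ∈ S, n < i ∧ i ≤ n + (2 * n) := by
    intro i hi
    simp only [S, Finset.mem_image, Finset.mem_Ioc] at hi
    obtain ⟨k, hk, rfl⟩ := hi
    omega
  set j : ℤ := ⌊(2 : ℝ) ^ n * x⌋ with hj
  have hp : (0 : ℝ) < 2 ^ n := by positivity
  have hhalf : (2 : ℝ) ^ n * (1 / 2) ^ n = 1 := by rw [← mul_pow]; norm_num
  have hsub : {h : ℝ | h ∈ Ioo (0 : ℝ) ((1 / 2) ^ n) ∧ |phi (x + h) - phi x| < t * (1 / 2) ^ n} ⊆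
      (fun h : ℝ => x + h) ⁻¹' ({y : ℝ | y ∈ Ico ((j : ℝ) / 2 ^ n) ((j + 1 : ℝ) / 2 ^ n) ∧
        ∀ i ∈ S, D i y = D i x} ∪
        {y : ℝ | y ∈ Ico (((j + 1 : ℤ) : ℝ) / 2 ^ n) (((j + 1 : ℤ) + 1 : ℝ) / 2 ^ n) ∧
        ∀ i ∈ S, D i y = D i x}) := by
    rintro h ⟨⟨h0, h1⟩, h2⟩
    have hdig : ∀ i ∈ S, D i (x + h) = D i x := by
      intro i hi
      simp only [S, Finset.mem_image, Finset.mem_Ioc] at hi
      obtain ⟨k, hk, rfl⟩ := hi
      by_contra hne
      have h3 := separation (x + h) x (2 * k) (2 * k) le_rfl (by rw [idx_even]; exact hne)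
      have h4 : t * (1 / 2 : ℝ) ^ n < 2 / 3 * (1 / 4) ^ (2 * k + 1) := by
        have h5 : t * (1 / 2 : ℝ) ^ n < 2 ^ m * (1 / 2) ^ n := mul_lt_mul_of_pos_right ht (by positivity)
        have h6 : (2 : ℝ) ^ m * (1 / 2) ^ n = (1 / 2) ^ (n - m) := by
          have : n = m + (n - m) := by omega
          nth_rw 1 [this]
          rw [pow_add, ← mul_assoc, ← mul_pow]; norm_num
        have h7 : (1 / 2 : ℝ) ^ (n - m) ≤ (1 / 2) ^ (4 * k + 3) :=
          pow_le_pow_of_le_one (by norm_num) (by norm_num) (by omega)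
        have h8 : (1 / 2 : ℝ) ^ (4 * k + 3) = 1 / 2 * (1 / 4) ^ (2 * k + 1) := by
          have : (1 / 4 : ℝ) = (1 / 2) ^ 2 := by norm_num
          rw [this, ← pow_mul, ← pow_succ']; congr 1; ring
        have h9 : (0 : ℝ) < (1 / 4) ^ (2 * k + 1) := by positivity
        linarith
      linarith
    have hxj1 : (j : ℝ) ≤ 2 ^ n * x := Int.floor_le _
    have hxj2 : 2 ^ n * x < j + 1 := Int.lt_floor_add_one _
    have hh : 2 ^ n * h < 1 := by
      have := mul_lt_mul_of_pos_left h1 hp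
      rwa [hhalf] at this
    have hh0 : 0 < 2 ^ n * h := mul_pos hp h0
    by_cases hc : 2 ^ n * (x + h) < j + 1
    · left
      refine ⟨?_, hdig⟩
      rw [mem_Ico, div_le_iff₀ hp, lt_div_iff₀ hp]
      constructor
      · linarith
      · linarith
    · right
      push Not at hc
      refine ⟨?_, hdig⟩
      rw [mem_Ico, div_le_iff₀ hp, lt_div_iff₀ hp]
      push_cast
      constructor
      · linarith
      · linarith
  refine (measure_mono hsub).trans ?_
  rw [measure_preimage_add]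
  refine (measure_union_le _ _).trans ?_
  have h1 := digit_measure (fun i => D i x) (2 * n) n j S hS
  have h2 := digit_measure (fun i => D i x) (2 * n) n (j + 1) S hS
  rw [hScard] at h1 h2
  refine (add_le_add h1 h2).trans (le_of_eq ?_)
  rw [← ENNReal.ofReal_add (by positivity) (by positivity), two_mul]

theorem ratio_tendsto (x t : ℝ) :
    Tendsto (fun r : ℝ => volume {h : ℝ | h ∈ Ioo 0 r ∧ |(phi (x + h) - phi x) / h| < t} /
      ENNReal.ofReal r) (𝓝[>] 0) (𝓝 0) := by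
  obtain ⟨m, hm⟩ := pow_unbounded_of_one_lt (max t 1) (by norm_num : (1 : ℝ) < 2)
  rw [ENNReal.tendsto_nhds_zero]
  intro ε hε
  -- choose N
  have hcnt : Tendsto (fun n => cnt m n) atTop atTop := by
    rw [tendsto_atTop_atTop]
    intro b
    refine ⟨8 * (b + m + 4), fun n hn => ?_⟩
    unfold cnt
    omega
  have hlim : Tendsto (fun n => ENNReal.ofReal (4 * (1 / 2) ^ (cnt m n))) atTop (𝓝 0) := by
    have h1 : Tendsto (fun n => 4 * (1 / 2 : ℝ) ^ (cnt m n)) atTop (𝓝 (4 * 0)) :=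
      ((tendsto_pow_atTop_nhds_zero_of_lt_one (by norm_num) (by norm_num)).comp hcnt).const_mul 4
    rw [mul_zero] at h1
    have h2 := (ENNReal.continuous_ofReal.tendsto 0).comp h1
    rw [ENNReal.ofReal_zero] at h2
    exact h2
  have hev := (ENNReal.tendsto_nhds_zero.1 hlim ε hε)
  obtain ⟨N, hN⟩ := eventually_atTop.1 hev
  have hδ : (0 : ℝ) < (1 / 2) ^ (max N (m + 3)) := by positivity
  filter_upwards [Ioo_mem_nhdsGT hδ] with r hr
  have hr1 : r ≤ 1 := hr.2.le.trans (pow_le_one₀ (by norm_num) (by norm_num))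
  obtain ⟨n, hn1, hn2⟩ := exists_nat_pow_near_of_lt_one hr.1 hr1 (by norm_num : (0 : ℝ) < 1 / 2) (by norm_num)
  have hnN : max N (m + 3) ≤ n := by
    by_contra hcon
    push Not at hcon
    have h1 : (1 / 2 : ℝ) ^ (max N (m + 3)) ≤ (1 / 2) ^ (n + 1) :=
      pow_le_pow_of_le_one (by norm_num) (by norm_num) (by omega)
    linarith [hr.2]
  refine le_trans ?_ (hN n (by omega))
  have hsub : {h : ℝ | h ∈ Ioo 0 r ∧ |(phi (x + h) - phi x) / h| < t} ⊆
      {h : ℝ | h ∈ Ioo (0 : ℝ) ((1 / 2) ^ n) ∧ |phi (x + h) - phi x| < max t 1 * (1 / 2) ^ n} := by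
    rintro h ⟨⟨h0, h1⟩, h2⟩
    refine ⟨⟨h0, h1.trans_le hn2⟩, ?_⟩
    rw [abs_div, abs_of_pos h0, div_lt_iff₀ h0] at h2
    have h3 : t * h ≤ max t 1 * h := mul_le_mul_of_nonneg_right (le_max_left _ _) h0.le
    have h4 : max t 1 * h ≤ max t 1 * (1 / 2) ^ n :=
      mul_le_mul_of_nonneg_left (h1.le.trans hn2) (le_trans zero_le_one (le_max_right _ _))
    linarith
  have hvol := (measure_mono hsub).trans (small_set x (max t 1) m n hm (by omega))
  rw [ENNReal.div_le_iff (by simp; exact hr.1) ENNReal.ofReal_ne_top, ← ENNReal.ofReal_mul (by positivity)]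
  refine hvol.trans (ENNReal.ofReal_le_ofReal ?_)
  have h5 : (1 / 2 : ℝ) ^ (n + cnt m n) = 2 * ((1 / 2) ^ (cnt m n) * (1 / 2) ^ (n + 1)) := by
    rw [pow_add, pow_succ]; ring
  rw [h5]
  have h6 : (0 : ℝ) < (1 / 2) ^ (cnt m n) := by positivity
  nlinarith

theorem result : ∃ φ : ℝ → ℝ, Measurable φ ∧ InjOn φ (Ioo (0 : ℝ) 2) ∧
    MapsTo φ (Ioo (0 : ℝ) 2) (Ioo (0 : ℝ) 1) ∧
    ∀ x ∈ Ioo (0 : ℝ) 2, apLiminf (fun h => |(φ (x + h) - φ x) / h|) = ⊤ := by
  refine ⟨phi, phi_meas, phi_injOn, fun y _ => phi_mem y, fun x _ => ?_⟩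
  unfold apLiminf
  rw [sSup_eq_top]
  intro b hb
  induction b with
  | bot => exact ⟨((0 : ℝ) : EReal), ⟨0, rfl, ratio_tendsto x 0⟩, EReal.bot_lt_coe 0⟩
  | coe b =>
    refine ⟨((b + 1 : ℝ) : EReal), ⟨b + 1, rfl, ratio_tendsto x (b + 1)⟩, ?_⟩
    exact EReal.coe_lt_coe_iff.2 (by linarith)
  | top => exact absurd hb (lt_irrefl _)

end Pool.Agent.Results.MP_868b62_an.InjectiveExpanding
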